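import Pool.Agent.Helper775.Proj.PSpace

/-!
# Top-tight maps of cohomology projective spaces: `N ≤ d n + n + d (n choose 2)`

The bound of Q1 holds for all closed connected topological manifolds of dimension `d n` whose mod 2
cohomology is spanned, in the degrees `1, ..., d n - 1`, by the powers of one class of degree `d`,
and for all maps which are tight near the supporting hyperplanes only. The main step is the theorem
`cps_bound` of the starting library (`Pool/Agent/Helper775`), which is used there for the projective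
spaces and for tight maps.
-/

set_option autoImplicit false
set_option linter.all false

namespace Pool.Agent.Results.MP_9697d1_gt.TopTightBound

open Pool.Agent.Helper775.Tight Set Topology SoftCx
open scoped InnerProductSpace Quaternion

/-- The mod 2 Alexander-Spanier cohomology of `P` is spanned, in the degrees `1, ..., d n - 1`, by
the cup powers of a class `u` of degree `d`: every cocycle `c` of degree `q`, `0 < q < d n`, is a
coboundary or differs by a coboundary from `u ^ i` with `q = i d`. (Cochains of degree `q` are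
functions on the lists of `q + 1` points, modulo the locally zero ones.) -/
def ProjectiveRing (d n : ℕ) (P : Type*) [TopologicalSpace P] : Prop :=
  ∃ u : List P → ZMod 2, LocallyZero (d + 1) (asD u) ∧
    ∀ q, 1 ≤ q → q < d * n → ∀ c : List P → ZMod 2, LocallyZero (q + 1) (asD c) →
      (∃ b : List P → ZMod 2, LocallyZero q (fun l => c l - asD b l)) ∨
      ∃ i, q = i * d ∧ ∃ b : List P → ZMod 2, LocallyZero q (fun l => c l - upow d u i l - asD b l)

/-- `f` is tight at the top: for every direction `z ≠ 0` the restriction from the cohomology of `X`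
to the cohomology of the set where `⟨z, f⟩` is maximal is surjective (Čech theory), or, for some
`s < max ⟨z, f⟩`, the preimages of the open half-spaces `{y | t < ⟨z, y⟩}` with `t ≥ s` are injective
in singular homology, or this is so for the closed half-spaces `{y | t ≤ ⟨z, y⟩}` with `t ≥ s`. -/
def TopTight {X : Type*} [TopologicalSpace X] {N : ℕ} (f : X → EuclideanSpace ℝ (Fin N)) : Prop :=
  ∀ z : EuclideanSpace ℝ (Fin N), z ≠ 0 →
    CechSurjective {x | ∀ y, ⟪z, f y⟫_ℝ ≤ ⟪z, f x⟫_ℝ} ∨
    ∃ s : ℝ, (∃ x, s < ⟪z, f x⟫_ℝ) ∧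
      ((∀ t, s ≤ t → HomologyInjective {x | t < ⟪z, f x⟫_ℝ}) ∨
        ∀ t, s ≤ t → HomologyInjective {x | t ≤ ⟪z, f x⟫_ℝ})

/-- tight maps are tight at the top -/
theorem topTight_of_tight {X : Type*} [TopologicalSpace X] [CompactSpace X] [Nonempty X] {N : ℕ}
    (f : X → EuclideanSpace ℝ (Fin N)) (hf : Continuous f)
    (ht : OpenTightMap f ∨ TightMap f ∨ CechTightMap f) : TopTight f := by
  intro z hz
  obtain ⟨x₁, -, hx₁⟩ := isCompact_univ.exists_isMaxOn (univ_nonempty (α := X))
    ((continuous_const.inner hf : Continuous fun x => ⟪z, f x⟫_ℝ).continuousOn)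
  have htop : {x | ∀ y, ⟪z, f y⟫_ℝ ≤ ⟪z, f x⟫_ℝ} = {x | ⟪z, f x₁⟫_ℝ ≤ ⟪z, f x⟫_ℝ} := by
    ext x
    constructor
    · intro h
      exact h x₁
    · intro h y
      exact (hx₁ (mem_univ y)).trans h
  rcases ht with ht | ht | ht
  · exact Or.inr ⟨⟪z, f x₁⟫_ℝ - 1, ⟨x₁, by linarith⟩, Or.inl fun t _ => ht z t hz⟩
  · exact Or.inr ⟨⟪z, f x₁⟫_ℝ - 1, ⟨x₁, by linarith⟩, Or.inr fun t _ => ht z t hz⟩
  · left
    rw [htop]
    exact ht z _ hz

theorem homologyInjective_univ {X : Type*} [TopologicalSpace X] {A : Set X} (hA : A = univ) :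
    HomologyInjective A := by
  subst hA
  rintro n c - - ⟨b, hb⟩
  exact ⟨b, fun σ _ => subset_univ _, hb⟩

/-- surjectivity of the restriction to the top sets -/
theorem surj_top {P : Type*} [MetricSpace P] [CompactSpace P] [Nonempty P] {m N : ℕ}
    [ChartedSpace (EuclideanSpace ℝ (Fin m)) P]
    (f : P → EuclideanSpace ℝ (Fin N)) (hf : Continuous f) (ht : TopTight f)
    (z : EuclideanSpace ℝ (Fin N)) (hz : z ≠ 0) (n' : ℕ) (hn' : 1 ≤ n') (c : Ch P)
    (hc : (AS P).Coc (top f z) n' c) :
    ∃ c', (AS P).Coc univ n' c' ∧ (AS P).Cob (top f z) n' (c - c') := by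
  obtain ⟨x₁, -, hx₁⟩ := isCompact_univ.exists_isMaxOn (univ_nonempty (α := P))
    ((continuous_const.inner hf : Continuous fun x => ⟪z, f x⟫_ℝ).continuousOn)
  have hcont : Continuous fun x => ⟪z, f x⟫_ℝ := continuous_const.inner hf
  have htop : top f z = {x | ⟪z, f x₁⟫_ℝ ≤ ⟪z, f x⟫_ℝ} := by
    ext x
    constructor
    · intro h
      exact h x₁
    · intro h y
      exact (hx₁ (mem_univ y)).trans h
  rcases ht z hz with h | ⟨s, ⟨x, hx⟩, h⟩
  · have hcl : IsCompact (top f z) := by
      rw [htop]
      exact (isClosed_le continuous_const hcont).isCompact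
    exact surj_of_cech hcl h n' hn' c hc
  · have hs : s < ⟪z, f x₁⟫_ℝ := lt_of_lt_of_le hx (hx₁ (mem_univ x))
    have hg : Continuous fun x => max ⟪z, f x⟫_ℝ s := hcont.max continuous_const
    have htop' : top f z = {x | ⟪z, f x₁⟫_ℝ ≤ max ⟪z, f x⟫_ℝ s} := by
      rw [htop]
      ext x
      simp only [mem_setOf_eq, le_max_iff]
      constructor
      · exact Or.inl
      · rintro (h1 | h1)
        · exact h1
        · exact absurd hs (not_lt.2 h1)
    rw [htop'] at hc ⊢
    rcases h with h | h
    · refine surj_of_sing_open (m := m) (fun x => max ⟪z, f x⟫_ℝ s) hg _ (fun t _ => ?_) n' c hc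
      rcases lt_or_ge t s with h1 | h1
      · apply homologyInjective_univ
        ext x
        simp only [mem_setOf_eq, mem_univ, iff_true]
        exact lt_of_lt_of_le h1 (le_max_right _ _)
      · have e : {x : P | t < max ⟪z, f x⟫_ℝ s} = {x | t < ⟪z, f x⟫_ℝ} := by
          ext x
          simp only [mem_setOf_eq, lt_max_iff]
          constructor
          · rintro (h2 | h2)
            · exact h2
            · exact absurd h2 (not_lt.2 h1)
          · exact Or.inl
        show HomologyInjective {x : P | t < max ⟪z, f x⟫_ℝ s}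
        rw [e]
        exact h t h1
    · refine surj_of_sing (m := m) (fun x => max ⟪z, f x⟫_ℝ s) hg _ (fun t _ => ?_) n' c hc
      rcases le_or_gt t s with h1 | h1
      · apply homologyInjective_univ
        ext x
        simp only [mem_setOf_eq, mem_univ, iff_true]
        exact le_trans h1 (le_max_right _ _)
      · have e : {x : P | t ≤ max ⟪z, f x⟫_ℝ s} = {x | t ≤ ⟪z, f x⟫_ℝ} := by
          ext x
          simp only [mem_setOf_eq, le_max_iff]
          constructor
          · rintro (h2 | h2)
            · exact h2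
            · exact absurd h1 (not_lt.2 h2)
          · exact Or.inl
        show HomologyInjective {x : P | t ≤ max ⟪z, f x⟫_ℝ s}
        rw [e]
        exact h t h1.le

/-- the general theorem -/
theorem general {P : Type*} [TopologicalSpace P] [CompactSpace P] [T2Space P]
    [ConnectedSpace P] {d n N : ℕ} (hd : 1 ≤ d) (hn : 1 ≤ n)
    [ChartedSpace (EuclideanSpace ℝ (Fin (d * n))) P] (hP : ProjectiveRing d n P)
    (f : P → EuclideanSpace ℝ (Fin N)) (hf : Continuous f) (hs : Substantial f)
    (ht : TopTight f) : N ≤ n + d * (n * (n + 1) / 2) := by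
  haveI : SecondCountableTopology P :=
    ChartedSpace.secondCountable_of_sigmaCompact (EuclideanSpace ℝ (Fin (d * n))) P
  haveI : TopologicalSpace.MetrizableSpace P :=
    TopologicalSpace.metrizableSpace_of_t3_secondCountable P
  letI : MetricSpace P := TopologicalSpace.metrizableSpaceMetric P
  obtain ⟨u, hu, hring⟩ := hP
  refine cps_bound hd hn f hf hs ?_ u ?_ ?_
  · intro z hz n' hn' c hc
    exact surj_top (m := d * n) f hf ht z hz n' hn' c hc
  · rw [asD_eq, locallyZero_iff] at hu
    exact hu
  · intro ν h2 hν c hc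
    obtain ⟨q, rfl⟩ : ∃ q, ν = q + 1 := ⟨ν - 1, by omega⟩
    have hc' : LocallyZero (q + 1) (asD c) := by
      rw [asD_eq, locallyZero_iff]
      exact hc
    rcases hring q (by omega) (by omega) c hc' with ⟨b, hb⟩ | ⟨i, hi, b, hb⟩
    · left
      rw [locallyZero_iff] at hb
      refine ⟨b, fun z hz => ?_⟩
      have h1 := hb z hz
      rw [asD_eq] at h1
      exact h1
    · right
      rw [locallyZero_iff] at hb
      refine ⟨i, by rw [hi], b, fun z hz => ?_⟩
      have h1 := hb z hz
      rw [asD_eq] at h1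
      exact h1

/-- base spaces of sphere bundles with a highly connected total space -/
theorem bundle {P : Type*} [TopologicalSpace P] [CompactSpace P] [T2Space P]
    [ConnectedSpace P] {d n : ℕ} (hd : 1 ≤ d)
    [ChartedSpace (EuclideanSpace ℝ (Fin (d * n))) P]
    {T : Type*} [MetricSpace T] [CompactSpace T] (q : T → P) (hq : Continuous q)
    (hT : ∀ ν, 2 ≤ ν → ν ≤ d * n → (AS T).Ex univ ν)
    (hloc : ∀ w : P, ∃ U : Set P, IsOpen U ∧ w ∈ U ∧ ∃ a : Ch T, (AS T).Coc (q ⁻¹' U) d a ∧
      ∀ w' ∈ U, (AS T).RT one d a (q ⁻¹' {w'})) : ProjectiveRing d n P := by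
  haveI : SecondCountableTopology P :=
    ChartedSpace.secondCountable_of_sigmaCompact (EuclideanSpace ℝ (Fin (d * n))) P
  haveI : TopologicalSpace.MetrizableSpace P :=
    TopologicalSpace.metrizableSpace_of_t3_secondCountable P
  letI : MetricSpace P := TopologicalSpace.metrizableSpaceMetric P
  obtain ⟨u, hu, hring⟩ := ring_of_bundle q hq hd hT hloc
  refine ⟨u, ?_, ?_⟩
  · rw [asD_eq, locallyZero_iff]
    exact hu
  · intro q' h1 h2 c hc
    have hc' : (AS P).Coc univ (q' + 1) c := by
      rw [asD_eq, locallyZero_iff] at hc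
      exact hc
    rcases hring (q' + 1) (by omega) (by omega) c hc' with ⟨b, hb⟩ | ⟨i, hi, b, hb⟩
    · left
      refine ⟨b, ?_⟩
      rw [locallyZero_iff, asD_eq]
      exact hb
    · right
      refine ⟨i, by omega, b, ?_⟩
      rw [locallyZero_iff, asD_eq]
      exact hb

section

variable {F : Type} [NormedDivisionRing F] [NormedAlgebra ℝ F] [FiniteDimensional ℝ F] {n : ℕ}

/-- the projective spaces satisfy the hypothesis -/
theorem proj_ring {d : ℕ} (hd : Module.finrank ℝ F = d) (hn : 1 ≤ n) :
    ProjectiveRing d n (ProjSpace F n) := by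
  have hd1 : 1 ≤ d := by rw [← hd]; exact Module.finrank_pos
  obtain ⟨cs⟩ := ps_charts (F := F) (n := n) hd
  haveI : CompactSpace (ProjSpace F n) := ps_compact
  haveI : T2Space (ProjSpace F n) := ps_t2
  haveI : ConnectedSpace (ProjSpace F n) := ps_connected hn
  have hfr : Module.finrank ℝ (Fin (n + 1) → F) = (n + 1) * d := by
    rw [Module.finrank_pi_fintype]
    simp [hd]
  have hD1 : 1 ≤ (n + 1) * d := Nat.mul_pos (Nat.succ_pos n) hd1
  obtain ⟨θ, -, hRT⟩ := nsphere (Fin (n + 1) → F) hfr hD1
  haveI : ProperSpace (Fin (n + 1) → F) := FiniteDimensional.proper ℝ (Fin (n + 1) → F)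
  haveI : CompactSpace (Metric.sphere (0 : Fin (n + 1) → F) 1) :=
    isCompact_iff_compactSpace.1 (isCompact_sphere _ _)
  refine bundle hd1 (qmap F n) qmap_continuous (fun ν h2 hν => ?_) (qmap_loc hd)
  refine job15702_ex_of_rt hRT ν h2 (lt_of_le_of_lt hν ?_)
  nlinarith

theorem proj_bound_top {d N : ℕ} (hd : Module.finrank ℝ F = d) (hn : 1 ≤ n)
    (f : ProjSpace F n → EuclideanSpace ℝ (Fin N)) (hf : Continuous f) (hs : Substantial f)
    (ht : TopTight f) : N ≤ n + d * (n * (n + 1) / 2) := by
  have hd1 : 1 ≤ d := by rw [← hd]; exact Module.finrank_pos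
  obtain ⟨cs⟩ := ps_charts (F := F) (n := n) hd
  haveI : CompactSpace (ProjSpace F n) := ps_compact
  haveI : T2Space (ProjSpace F n) := ps_t2
  haveI : ConnectedSpace (ProjSpace F n) := ps_connected hn
  exact general hd1 hn (proj_ring hd hn) f hf hs ht

end

theorem arith {d n N : ℕ} (h : N ≤ n + d * (n * (n + 1) / 2)) :
    N ≤ d * n + (n + d * n.choose 2) := by
  have key : n * (n + 1) / 2 = n + n.choose 2 := by
    have h1 : (n + 1).choose 2 = n.choose 1 + n.choose 2 := Nat.choose_succ_succ n 1
    rw [Nat.choose_two_right, Nat.choose_one_right, Nat.add_sub_cancel] at h1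
    rw [mul_comm, h1]
  rw [key, mul_add] at h
  omega

/-- **The bound for maps which are tight at the top, of cohomology projective spaces.** (1) Tight
maps (in any of three senses) are tight at the top. (2) Let `P` be a closed connected topological
manifold of dimension `d n` (`d, n ≥ 1`) whose mod 2 cohomology is spanned, in the degrees
`1, ..., d n - 1`, by the powers of one class of degree `d`. Then every substantial continuous map
`f : P → ℝ^N` which is tight at the top satisfies `N - d n ≤ n + d (n choose 2)`. (3) For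
`F = ℝ, ℂ, ℍ` the space `FP^n` has this property with `d = dim F`, and the bound holds for it. -/
theorem result {n N : ℕ} (hn : 1 ≤ n) :
    (∀ (X : Type) [TopologicalSpace X] [CompactSpace X] [Nonempty X]
      (f : X → EuclideanSpace ℝ (Fin N)), Continuous f →
      (OpenTightMap f ∨ TightMap f ∨ CechTightMap f) → TopTight f) ∧
    (∀ (d : ℕ) (P : Type) [TopologicalSpace P] [CompactSpace P] [T2Space P] [ConnectedSpace P]
      [ChartedSpace (EuclideanSpace ℝ (Fin (d * n))) P], 1 ≤ d → ProjectiveRing d n P →
      ∀ f : P → EuclideanSpace ℝ (Fin N), Continuous f → Substantial f → TopTight f →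
        N ≤ d * n + (n + d * n.choose 2)) ∧
    (ProjectiveRing 1 n (ProjSpace ℝ n) ∧
      ∀ f : ProjSpace ℝ n → EuclideanSpace ℝ (Fin N), Continuous f → Substantial f → TopTight f →
        N ≤ 1 * n + (n + 1 * n.choose 2)) ∧
    (ProjectiveRing 2 n (ProjSpace ℂ n) ∧
      ∀ f : ProjSpace ℂ n → EuclideanSpace ℝ (Fin N), Continuous f → Substantial f → TopTight f →
        N ≤ 2 * n + (n + 2 * n.choose 2)) ∧
    (ProjectiveRing 4 n (ProjSpace ℍ[ℝ] n) ∧
      ∀ f : ProjSpace ℍ[ℝ] n → EuclideanSpace ℝ (Fin N), Continuous f → Substantial f →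
        TopTight f → N ≤ 4 * n + (n + 4 * n.choose 2)) := by
  refine ⟨fun X _ _ _ f hf ht => topTight_of_tight f hf ht,
    fun d P _ _ _ _ _ hd hP f hf hs ht => arith (general hd hn hP f hf hs ht),
    ⟨proj_ring (Module.finrank_self ℝ) hn, fun f hf hs ht => ?_⟩,
    ⟨proj_ring Complex.finrank_real_complex hn, fun f hf hs ht => ?_⟩,
    ⟨proj_ring Quaternion.finrank_eq_four hn, fun f hf hs ht => ?_⟩⟩
  · exact arith (proj_bound_top (F := ℝ) (d := 1) (Module.finrank_self ℝ) hn f hf hs ht)
  · exact arith (proj_bound_top (F := ℂ) (d := 2) Complex.finrank_real_complex hn f hf hs ht)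
  · exact arith (proj_bound_top (F := ℍ[ℝ]) (d := 4) Quaternion.finrank_eq_four hn f hf hs ht)

end Pool.Agent.Results.MP_9697d1_gt.TopTightBound
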